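import Mathlib
import Pool.Agent.H892.VS.Stm

set_option autoImplicit false

/-!
# Project VS (helper892): density in an affine chart
-/

open MvPolynomial

namespace Pool.Agent.H675.VS

open Pool.Agent.H892.VS

section

variable {n s : ℕ} (T : Cox n s)

theorem pt_of_ne {x : Fin n → ℂ} (hx : ∀ j, x j ≠ 0) : T.pt x := by
  obtain ⟨E, hE⟩ := T.irr_ne
  exact ⟨E, hE, fun j _ => hx j⟩

theorem sec_sub (v : Fin s → ℤ) (r : ℕ) : T.sec v r ⊆ T.sig v r := by
  intro F hF P hP
  exact hP F hF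

theorem eval_ptIdeal {r : ℕ} {x : Fin r → Fin n → ℂ} {g : MvPolynomial (Fin n) ℂ}
    (hg : g ∈ T.ptIdeal x) (i : Fin r) : eval (x i) g = 0 := by
  have h : T.ptIdeal x ≤ RingHom.ker (eval (x i)) := by
    unfold Cox.ptIdeal
    rw [Ideal.span_le]
    rintro g ⟨_, hg⟩
    exact hg i
  exact h hg

theorem mem_mon {u : Fin s → ℤ} {m : Mon n} : m ∈ T.mon u ↔ T.wt m = u := by
  unfold Cox.mon
  rw [Set.Finite.mem_toFinset]
  rfl

theorem red_co {D : Finset (Fin s → ℤ)} {A : Finset (Mon n)} {J : Ideal (MvPolynomial (Fin n) ℂ)}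
    (hJ : T.IsBase D A J) {m : Mon n} (hm : T.wt m ∈ D) :
    T.Red A J m (fun a => T.co D A J (m, a)) := by
  obtain ⟨c, hc, _⟩ := hJ m hm
  have h : T.wt m ∈ D ∧ ∃ c, T.Red A J m c := ⟨hm, c, hc⟩
  have e : (fun a => T.co D A J (m, a)) = Classical.choose h.2 := by
    funext a
    unfold Cox.co
    rw [dif_pos h]
  rw [e]
  exact Classical.choose_spec h.2

theorem co_ne {D : Finset (Fin s → ℤ)} {A : Finset (Mon n)} {J : Ideal (MvPolynomial (Fin n) ℂ)}
    {w : Mon n × Mon n} (h : T.co D A J w ≠ 0) : T.wt w.1 ∈ D ∧ w.2 ∈ A ∧ T.wt w.2 = T.wt w.1 := by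
  unfold Cox.co at h
  by_cases h' : T.wt w.1 ∈ D ∧ ∃ c, T.Red A J w.1 c
  · rw [dif_pos h'] at h
    obtain ⟨h1, h2⟩ := (Classical.choose_spec h'.2).1 w.2 h
    exact ⟨h'.1, h1, h2⟩
  · rw [dif_neg h'] at h
    exact absurd rfl h

/-- the relevant coordinates -/
noncomputable def Kf (D : Finset (Fin s → ℤ)) (A : Finset (Mon n)) : Finset (Mon n × Mon n) :=
  ((D.biUnion T.mon) ×ˢ A).filter fun w => T.wt w.2 = T.wt w.1

theorem mem_Kf {D : Finset (Fin s → ℤ)} {A : Finset (Mon n)} {w : Mon n × Mon n} :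
    w ∈ Kf T D A ↔ T.wt w.1 ∈ D ∧ w.2 ∈ A ∧ T.wt w.2 = T.wt w.1 := by
  unfold Kf
  rw [Finset.mem_filter, Finset.mem_product, Finset.mem_biUnion]
  constructor
  · rintro ⟨⟨⟨u, hu, h1⟩, h2⟩, h3⟩
    rw [mem_mon] at h1
    exact ⟨h1 ▸ hu, h2, h3⟩
  · rintro ⟨h1, h2, h3⟩
    exact ⟨⟨⟨_, h1, (mem_mon T).2 rfl⟩, h2⟩, h3⟩

/-- the basis elements of degree `v` -/
noncomputable def Avf (v : Fin s → ℤ) (A : Finset (Mon n)) : Finset (Mon n) :=
  A.filter fun a => T.wt a = v

theorem mem_Avf {v : Fin s → ℤ} {A : Finset (Mon n)} {a : Mon n} :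
    a ∈ Avf T v A ↔ a ∈ A ∧ T.wt a = v := by
  unfold Avf
  rw [Finset.mem_filter]

/-- the target variables -/
abbrev Kap (v : Fin s → ℤ) (D : Finset (Fin s → ℤ)) (A : Finset (Mon n)) : Type :=
  {w // w ∈ Kf T D A} ⊕ {a // a ∈ Avf T v A}

/-- monomials -/
noncomputable def mval (x : Fin n → ℂ) (a : Mon n) : ℂ := ∏ j, x j ^ a j

theorem eval_mon (x : Fin n → ℂ) (a : Mon n) (c : ℂ) : eval x (monomial a c) = c * mval x a := by
  rw [eval_monomial]
  congr 1
  unfold mval
  rw [Finsupp.prod_fintype]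
  intro i
  rw [pow_zero]

/-- evaluation of the reduction -/
theorem eval_red {A : Finset (Mon n)} {J : Ideal (MvPolynomial (Fin n) ℂ)} {m : Mon n}
    {c : Mon n → ℂ} (h : T.Red A J m c) (x : Fin n → ℂ) (hx : ∀ g ∈ J, eval x g = 0) :
    mval x m = ∑ a ∈ A, c a * mval x a := by
  have h1 := hx _ h.2
  rw [map_sub, map_sum, eval_mon, one_mul, sub_eq_zero] at h1
  rw [h1]
  exact Finset.sum_congr rfl fun a _ => eval_mon x a (c a)

/-- sums over the basis elements of degree `v` -/
theorem sum_Avf {v : Fin s → ℤ} {A : Finset (Mon n)} (φ : Mon n → ℂ)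
    (h : ∀ a ∈ A, T.wt a ≠ v → φ a = 0) :
    ∑ a ∈ A, φ a = ∑ a : {a // a ∈ Avf T v A}, φ a.1 := by
  rw [Finset.sum_coe_sort (Avf T v A) φ]
  unfold Avf
  rw [Finset.sum_filter]
  refine Finset.sum_congr rfl fun a ha => ?_
  by_cases hv : T.wt a = v
  · rw [if_pos hv]
  · rw [if_neg hv, h a ha hv]

/-- the pairing -/
theorem pair_sum (F : Mon n → ℂ) (g : MvPolynomial (Fin n) ℂ) (S : Finset (Mon n))
    (hS : g.support ⊆ S) : pair F g = ∑ m ∈ S, g.coeff m * F m := by
  unfold pair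
  refine Finset.sum_subset hS fun m _ hm => ?_
  rw [notMem_support_iff.1 hm, zero_mul]

theorem pair_red {A : Finset (Mon n)} (F : Mon n → ℂ) (m : Mon n) (c : Mon n → ℂ) :
    pair F (monomial m 1 - ∑ a ∈ A, monomial a (c a)) = F m - ∑ a ∈ A, c a * F a := by
  classical
  rw [pair_sum F _ (insert m A ∪ (monomial m (1 : ℂ) - ∑ a ∈ A, monomial a (c a)).support)
    Finset.subset_union_right]
  obtain ⟨S, hS⟩ : ∃ S, S = insert m A ∪
    (monomial m (1 : ℂ) - ∑ a ∈ A, monomial a (c a)).support := ⟨_, rfl⟩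
  rw [← hS]
  have hm : m ∈ S := by
    rw [hS]
    exact Finset.mem_union_left _ (Finset.mem_insert_self _ _)
  have hA : ∀ a ∈ A, a ∈ S := by
    intro a ha
    rw [hS]
    exact Finset.mem_union_left _ (Finset.mem_insert_of_mem ha)
  have e1 : ∀ m' ∈ S, coeff m' (monomial m (1 : ℂ) - ∑ a ∈ A, monomial a (c a)) * F m' =
      (if m = m' then F m' else 0) - ∑ a ∈ A, (if a = m' then c a * F m' else 0) := by
    intro m' _
    rw [coeff_sub, coeff_monomial, coeff_sum, sub_mul, Finset.sum_mul]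
    congr 1
    · split_ifs <;> ring
    · refine Finset.sum_congr rfl fun a _ => ?_
      rw [coeff_monomial]
      split_ifs <;> ring
  rw [Finset.sum_congr rfl e1, Finset.sum_sub_distrib, Finset.sum_ite_eq, if_pos hm,
    Finset.sum_comm]
  congr 1
  refine Finset.sum_congr rfl fun a ha => ?_
  rw [Finset.sum_ite_eq, if_pos (hA a ha)]

/-- denominators can be cleared -/
theorem clear {σ κ : Type} (d : MvPolynomial σ ℂ) (g : κ → MvPolynomial σ ℂ)
    (Q : MvPolynomial κ ℂ) : ∃ (R : MvPolynomial σ ℂ) (N : ℕ), ∀ x : σ → ℂ, eval x d ≠ 0 →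
      eval x R = eval x d ^ N * eval (fun k => eval x (g k) / eval x d) Q := by
  induction Q using MvPolynomial.induction_on with
  | C a => exact ⟨C a, 0, fun x _ => by rw [eval_C, eval_C, pow_zero, one_mul]⟩
  | add p q hp hq =>
    obtain ⟨R1, N1, h1⟩ := hp
    obtain ⟨R2, N2, h2⟩ := hq
    refine ⟨d ^ N2 * R1 + d ^ N1 * R2, N1 + N2, fun x hx => ?_⟩
    rw [map_add, map_mul, map_mul, map_pow, map_pow, h1 x hx, h2 x hx, map_add]
    ring
  | mul_X p k hp =>
    obtain ⟨R, N, h⟩ := hp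
    refine ⟨R * g k, N + 1, fun x hx => ?_⟩
    rw [map_mul, h x hx, map_mul, eval_X, pow_succ]
    have e : eval x d * (eval x (g k) / eval x d) = eval x (g k) := mul_div_cancel₀ _ hx
    linear_combination (-(eval x d ^ N * eval (fun k => eval x (g k) / eval x d) p)) * e

end

section

variable {n s r : ℕ} (T : Cox n s) (v : Fin s → ℤ) (D : Finset (Fin s → ℤ)) (A : Finset (Mon n))

/-- the source variables -/
abbrev Io (n r : ℕ) : Type := (Fin r × Fin n) ⊕ Fin r

/-- polynomials in the coordinates of the points -/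
noncomputable def rn (p : MvPolynomial (Fin r × Fin n) ℂ) : MvPolynomial (Io n r) ℂ :=
  rename Sum.inl p

theorem eval_rn (z : Io n r → ℂ) (p : MvPolynomial (Fin r × Fin n) ℂ) :
    eval z (rn p) = eval (fun w => z (Sum.inl (w.1, w.2))) p := by
  unfold rn
  rw [eval_rename]
  rfl

/-- the numerators -/
noncomputable def num (q d : MvPolynomial (Fin r × Fin n) ℂ)
    (g : Mon n × Mon n → MvPolynomial (Fin r × Fin n) ℂ) :
    Kap T v D A → MvPolynomial (Io n r) ℂ :=
  Sum.elim (fun w => rn (g w.1) * rn q)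
    (fun a => (∑ i, X (Sum.inr i) * ∏ j, X (Sum.inl (i, j)) ^ a.1 j) * (rn q * rn d))

theorem rat_inl {q d : MvPolynomial (Fin r × Fin n) ℂ}
    {g : Mon n × Mon n → MvPolynomial (Fin r × Fin n) ℂ} {z : Io n r → ℂ}
    (hz : eval z (rn q * rn d) ≠ 0) (w : {w // w ∈ Kf T D A}) :
    rat (rn q * rn d) (num T v D A q d g) 1 z (Sum.inl w) =
      eval (fun w => z (Sum.inl (w.1, w.2))) (g w.1) / eval (fun w => z (Sum.inl (w.1, w.2))) d := by
  unfold rat num
  rw [Sum.elim_inl, pow_one]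
  rw [map_mul] at hz ⊢
  rw [map_mul]
  have h1 := left_ne_zero_of_mul hz
  have h2 := right_ne_zero_of_mul hz
  rw [eval_rn, eval_rn] at *
  rw [eval_rn]
  field_simp

theorem rat_inr {q d : MvPolynomial (Fin r × Fin n) ℂ}
    {g : Mon n × Mon n → MvPolynomial (Fin r × Fin n) ℂ} {z : Io n r → ℂ}
    (hz : eval z (rn q * rn d) ≠ 0) (a : {a // a ∈ Avf T v A}) :
    rat (rn q * rn d) (num T v D A q d g) 1 z (Sum.inr a) =
      ∑ i, z (Sum.inr i) * mval (fun j => z (Sum.inl (i, j))) a.1 := by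
  unfold rat num mval
  rw [Sum.elim_inr, pow_one, map_mul, mul_div_assoc, div_self hz, mul_one, map_sum]
  refine Finset.sum_congr rfl fun i _ => ?_
  rw [map_mul, eval_X, map_prod]
  congr 1
  refine Finset.prod_congr rfl fun j _ => ?_
  rw [map_pow, eval_X]

theorem pair_mem (hv : v ∈ D) {m a : Mon n} (hm : m ∈ T.mon v) (ha : a ∈ Avf T v A) :
    (m, a) ∈ Kf T D A := by
  rw [mem_mon] at hm
  rw [mem_Avf] at ha
  rw [mem_Kf]
  exact ⟨by rw [hm]; exact hv, ha.1, by rw [ha.2, hm]⟩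

/-- the map to the functionals -/
noncomputable def ff (hv : v ∈ D) (m : {m // m ∈ T.mon v}) : MvPolynomial (Kap T v D A) ℂ :=
  ∑ a : {a // a ∈ Avf T v A}, X (Sum.inl ⟨(m.1, a.1), pair_mem T v D A hv m.2 a.2⟩) * X (Sum.inr a)

theorem eval_ff (hv : v ∈ D) (m : {m // m ∈ T.mon v}) (y : Kap T v D A → ℂ) :
    eval y (ff T v D A hv m) = ∑ a : {a // a ∈ Avf T v A},
      y (Sum.inl ⟨(m.1, a.1), pair_mem T v D A hv m.2 a.2⟩) * y (Sum.inr a) := by
  unfold ff
  rw [map_sum]
  exact Finset.sum_congr rfl fun a _ => by rw [map_mul, eval_X, eval_X]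

open Classical in
/-- restriction of `P` to the relevant coordinates -/
noncomputable def rP (P : MvPolynomial (Mon n × Mon n) ℂ) : MvPolynomial (Kap T v D A) ℂ :=
  aeval (fun w => if h : w ∈ Kf T D A then (X (Sum.inl ⟨w, h⟩) : MvPolynomial (Kap T v D A) ℂ)
    else 0) P

theorem eval_rP (P : MvPolynomial (Mon n × Mon n) ℂ) (J : Ideal (MvPolynomial (Fin n) ℂ))
    (y : Kap T v D A → ℂ) (hy : ∀ w, y (Sum.inl w) = T.co D A J w.1) :
    eval y (rP T v D A P) = eval (T.co D A J) P := by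
  classical
  have h : ∀ (κ : Type) (y : κ → ℂ) (p : MvPolynomial κ ℂ), eval y p = aeval y p := fun _ _ _ => rfl
  unfold rP
  rw [h, h, comp_aeval_apply]
  congr 2
  funext w
  by_cases hw : w ∈ Kf T D A
  · rw [dif_pos hw, aeval_X, hy]
  · rw [dif_neg hw, map_zero]
    by_contra hne
    exact hw ((mem_Kf T).2 (co_ne T (fun h0 => hne h0.symm)))

/-- the functionals as constants -/
noncomputable def cQ (F : Mon n → ℂ) (Q : MvPolynomial (Kap T v D A) ℂ) :
    MvPolynomial (Mon n × Mon n) ℂ :=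
  aeval (Sum.elim (fun w => (X w.1 : MvPolynomial (Mon n × Mon n) ℂ)) (fun a => C (F a.1))) Q

theorem eval_cQ (F : Mon n → ℂ) (Q : MvPolynomial (Kap T v D A) ℂ) (y : Mon n × Mon n → ℂ) :
    eval y (cQ T v D A F Q) = eval (Sum.elim (fun w => y w.1) (fun a => F a.1)) Q := by
  have h : ∀ (κ : Type) (y : κ → ℂ) (p : MvPolynomial κ ℂ), eval y p = aeval y p := fun _ _ _ => rfl
  unfold cQ
  rw [h, h, comp_aeval_apply]
  congr 2
  funext w
  rcases w with w | a
  · rw [Sum.elim_inl, Sum.elim_inl, aeval_X]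
  · rw [Sum.elim_inr, Sum.elim_inr, aeval_C]
    rfl

/-- the values of the rational map -/
theorem key (hv : v ∈ D) {q d : MvPolynomial (Fin r × Fin n) ℂ}
    {g : Mon n × Mon n → MvPolynomial (Fin r × Fin n) ℂ} {z : Io n r → ℂ}
    (hz : eval z (rn q * rn d) ≠ 0)
    (hb : T.IsBase D A (T.ptIdeal fun i j => z (Sum.inl (i, j))))
    (hco : ∀ w, T.co D A (T.ptIdeal fun i j => z (Sum.inl (i, j))) w *
      eval (fun w => z (Sum.inl (w.1, w.2))) d = eval (fun w => z (Sum.inl (w.1, w.2))) (g w))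
    (m : {m // m ∈ T.mon v}) :
    (∀ w : {w // w ∈ Kf T D A}, rat (rn q * rn d) (num T v D A q d g) 1 z (Sum.inl w) =
      T.co D A (T.ptIdeal fun i j => z (Sum.inl (i, j))) w.1) ∧
    eval (rat (rn q * rn d) (num T v D A q d g) 1 z) (ff T v D A hv m) =
      (∑ i, z (Sum.inr i) • T.ev v (fun j => z (Sum.inl (i, j)))) m.1 := by
  have hd : eval (fun w => z (Sum.inl (w.1, w.2))) d ≠ 0 := by
    rw [map_mul, eval_rn, eval_rn] at hz
    exact right_ne_zero_of_mul hz
  have h1 : ∀ w : {w // w ∈ Kf T D A}, rat (rn q * rn d) (num T v D A q d g) 1 z (Sum.inl w) =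
      T.co D A (T.ptIdeal fun i j => z (Sum.inl (i, j))) w.1 := by
    intro w
    rw [rat_inl T v D A hz, div_eq_iff hd, hco]
  refine ⟨h1, ?_⟩
  have hwt : T.wt m.1 = v := (mem_mon T).1 m.2
  have hred := red_co T hb (m := m.1) (by rw [hwt]; exact hv)
  rw [eval_ff, Finset.sum_apply]
  have h2 : ∀ a : {a // a ∈ Avf T v A},
      rat (rn q * rn d) (num T v D A q d g) 1 z (Sum.inl ⟨(m.1, a.1), pair_mem T v D A hv m.2 a.2⟩) *
        rat (rn q * rn d) (num T v D A q d g) 1 z (Sum.inr a) =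
      ∑ i, z (Sum.inr i) * (T.co D A (T.ptIdeal fun i j => z (Sum.inl (i, j))) (m.1, a.1) *
        mval (fun j => z (Sum.inl (i, j))) a.1) := by
    intro a
    rw [h1, rat_inr T v D A hz, Finset.mul_sum]
    exact Finset.sum_congr rfl fun i _ => by ring
  rw [Finset.sum_congr rfl fun a _ => h2 a, Finset.sum_comm]
  refine Finset.sum_congr rfl fun i _ => ?_
  rw [← Finset.mul_sum, Pi.smul_apply, smul_eq_mul]
  congr 1
  have h3 := eval_red T hred (fun j => z (Sum.inl (i, j))) (fun g hg => eval_ptIdeal T hg i)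
  have h4 : T.ev v (fun j => z (Sum.inl (i, j))) m.1 = mval (fun j => z (Sum.inl (i, j))) m.1 := by
    unfold Cox.ev mval
    rw [if_pos m.2]
  rw [h4, h3]
  refine (sum_Avf T (v := v) (fun a => T.co D A (T.ptIdeal fun i j => z (Sum.inl (i, j))) (m.1, a) *
    mval (fun j => z (Sum.inl (i, j))) a) fun a _ hne => ?_).symm
  have h5 : T.co D A (T.ptIdeal fun i j => z (Sum.inl (i, j))) (m.1, a) = 0 := by
    by_contra hc
    exact hne ((co_ne T hc).2.2.trans hwt)
  rw [h5, zero_mul]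

/-- interpolation -/
theorem interp (h4 : S_PTI) (hv : v ∈ D) {x : Fin r → Fin n → ℂ}
    (hb : T.IsBase D A (T.ptIdeal x)) (F : Mon n → ℂ) : ∃ c : Fin r → ℂ,
      ∀ a : {a // a ∈ Avf T v A}, ∑ i, c i * mval (x i) a.1 = F a.1 := by
  classical
  have hli : LinearIndependent ℂ (fun (a : {a // a ∈ Avf T v A}) (i : Fin r) => mval (x i) a.1) := by
    rw [Fintype.linearIndependent_iff]
    intro l hl a₀
    let L : Mon n → ℂ := fun a => if h : a ∈ Avf T v A then l ⟨a, h⟩ else 0
    have hL : ∀ a : {a // a ∈ Avf T v A}, L a.1 = l a := by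
      intro a
      show (if h : a.1 ∈ Avf T v A then l ⟨a.1, h⟩ else 0) = l a
      rw [dif_pos a.2]
    have hL0 : ∀ a, L a ≠ 0 → a ∈ A ∧ T.wt a = v := by
      intro a ha
      by_contra hcon
      apply ha
      show (if h : a ∈ Avf T v A then l ⟨a, h⟩ else 0) = 0
      rw [dif_neg (fun h => hcon ((mem_Avf T).1 h))]
    have hmem : ∑ a ∈ A, monomial a (L a) ∈ T.ptIdeal x := by
      rw [(h4 n s r T x).2.2 v]
      · intro i
        rw [map_sum]
        have e1 : ∀ a ∈ A, eval (x i) (monomial a (L a)) = L a * mval (x i) a :=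
          fun a _ => eval_mon (x i) a (L a)
        rw [Finset.sum_congr rfl e1, sum_Avf T (v := v) (fun a => L a * mval (x i) a) (by
          intro a _ hne
          have : L a = 0 := by
            by_contra hc
            exact hne (hL0 a hc).2
          rw [this, zero_mul])]
        have h5 := congrFun hl i
        rw [Finset.sum_apply] at h5
        rw [Pi.zero_apply] at h5
        rw [← h5]
        refine Finset.sum_congr rfl fun a _ => ?_
        rw [hL, Pi.smul_apply, smul_eq_mul]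
      · refine Submodule.sum_mem _ fun a ha => ?_
        intro m hm
        rw [coeff_monomial] at hm
        by_cases h6 : a = m
        · rw [if_pos h6] at hm
          rw [← h6]
          exact (hL0 a hm).2
        · rw [if_neg h6] at hm
          exact absurd rfl hm
    have hwt : T.wt a₀.1 = v := ((mem_Avf T).1 a₀.2).2
    obtain ⟨c, hc, hu⟩ := hb a₀.1 (by rw [hwt]; exact hv)
    have hc' : T.Red A (T.ptIdeal x) a₀.1 (fun a => c a + L a) := by
      refine ⟨fun a ha => ?_, ?_⟩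
      · by_cases h6 : c a = 0
        · have h7 : L a ≠ 0 := by
            intro h7
            apply ha
            show c a + L a = 0
            rw [h6, h7, add_zero]
          exact ⟨(hL0 a h7).1, (hL0 a h7).2.trans hwt.symm⟩
        · exact hc.1 a h6
      · have e2 : monomial a₀.1 (1 : ℂ) - ∑ a ∈ A, monomial a (c a + L a) =
            (monomial a₀.1 (1 : ℂ) - ∑ a ∈ A, monomial a (c a)) - ∑ a ∈ A, monomial a (L a) := by
          rw [sub_sub, ← Finset.sum_add_distrib]
          congr 1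
          exact Finset.sum_congr rfl fun a _ => by rw [map_add]
        rw [e2]
        exact Ideal.sub_mem _ hc.2 hmem
    have h8 := congrFun (hu _ hc') a₀.1
    simp only [add_eq_left] at h8
    rw [← hL a₀]
    exact h8
  obtain ⟨φ, hφ⟩ := LinearMap.exists_extend
    ((Finsupp.linearCombination ℂ (fun a : {a // a ∈ Avf T v A} => F a.1)).comp
      (hli.repr : _ →ₗ[ℂ] _))
  refine ⟨fun i => φ (Pi.single i 1), fun a => ?_⟩
  have h9 : φ (fun i => mval (x i) a.1) = F a.1 := by
    have h10 := congrArg (fun f => f ⟨fun i => mval (x i) a.1,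
      Submodule.subset_span ⟨a, rfl⟩⟩) hφ
    simp only [LinearMap.comp_apply, Submodule.subtype_apply] at h10
    rw [h10]
    have h11 := hli.repr_eq_single a ⟨fun i => mval (x i) a.1, Submodule.subset_span ⟨a, rfl⟩⟩ rfl
    show Finsupp.linearCombination ℂ (fun a : {a // a ∈ Avf T v A} => F a.1)
      (hli.repr ⟨fun i => mval (x i) a.1, Submodule.subset_span ⟨a, rfl⟩⟩) = F a.1
    rw [h11, Finsupp.linearCombination_single, one_smul]
  rw [← h9]
  have h12 : (fun i => mval (x i) a.1) = ∑ i, mval (x i) a.1 • (Pi.single i (1 : ℂ) : Fin r → ℂ) := by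
    funext j
    rw [Finset.sum_apply, Finset.sum_eq_single j]
    · simp
    · intro i _ hij
      rw [Pi.smul_apply, Pi.single_eq_of_ne hij.symm, smul_zero]
    · intro h
      exact absurd (Finset.mem_univ _) h
  rw [h12, map_sum]
  refine Finset.sum_congr rfl fun i _ => ?_
  rw [map_smul, smul_eq_mul, mul_comm]

end

theorem t_CHART (h1 : S_GF) (h2 : S_GEN) (h3 : S_COFR) (h4 : S_PTI) (h5 : S_APO) (h6 : S_SUPP) :
    S_CHART := by
  classical
  intro n s r T v D hv A
  obtain ⟨q, hq0, hq⟩ := h2 n s r T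
  obtain ⟨d, g, hdg⟩ := h3 n s r T D A
  -- points near an element of the closure
  have hcl : ∀ F, ∀ J ∈ T.vsp D r F, ∀ P, J ∈ T.bo D A P → ∃ x : Fin r → Fin n → ℂ,
      (∀ i, T.pt (x i)) ∧ T.ptIdeal x ∈ T.hilb r ∧ T.ptIdeal x ∈ T.bo D A P := by
    intro F J hJ P hP
    obtain ⟨⟨_, hJ2⟩, _⟩ := hJ
    have hopen : @IsOpen _ (T.zar D) (T.bo D A P) :=
      TopologicalSpace.isOpen_generateFrom_of_mem ⟨A, P, rfl⟩
    obtain ⟨J', hJ', ⟨h7, x, hx, rfl⟩⟩ := (@mem_closure_iff _ (T.zar D) _ _).1 hJ2 _ hopen hP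
    exact ⟨x, hx, h7, hJ'⟩
  by_cases hd : d = 0
  · refine ⟨1, ⟨0, sec_sub T v r ⟨fun _ _ => 1, fun _ => 0, fun i => pt_of_ne T fun _ => one_ne_zero,
      ?_⟩, ?_⟩, ?_⟩
    · simp
    · rw [map_one]
      exact one_ne_zero
    · intro F _ _ J hJ P hP
      obtain ⟨x, _, h8, h9⟩ := hcl F J hJ P hP
      have h10 := ((hdg x h8).1).1 h9.1
      rw [hd, map_zero] at h10
      exact absurd rfl h10
  have hqd : (rn q * rn d : MvPolynomial (Io n r) ℂ) ≠ 0 := by
    have hi : Function.Injective (rename (Sum.inl : Fin r × Fin n → Io n r) :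
        MvPolynomial (Fin r × Fin n) ℂ → MvPolynomial (Io n r) ℂ) :=
      rename_injective _ Sum.inl_injective
    refine mul_ne_zero (fun h => hq0 (hi ?_)) (fun h => hd (hi ?_))
    · rw [map_zero]
      exact h
    · rw [map_zero]
      exact h
  -- facts on the points with nonzero denominators
  have hz : ∀ z : Io n r → ℂ, eval z (rn q * rn d) ≠ 0 →
      (∀ i j, z (Sum.inl (i, j)) ≠ 0) ∧ T.ptIdeal (fun i j => z (Sum.inl (i, j))) ∈ T.hilb r ∧
      T.IsBase D A (T.ptIdeal fun i j => z (Sum.inl (i, j))) ∧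
      ∀ w, T.co D A (T.ptIdeal fun i j => z (Sum.inl (i, j))) w *
        eval (fun w => z (Sum.inl (w.1, w.2))) d = eval (fun w => z (Sum.inl (w.1, w.2))) (g w) := by
    intro z hz
    rw [map_mul, eval_rn, eval_rn] at hz
    obtain ⟨a1, a2⟩ := hq (fun i j => z (Sum.inl (i, j))) (left_ne_zero_of_mul hz)
    obtain ⟨a3, a4⟩ := hdg (fun i j => z (Sum.inl (i, j))) a2
    have a5 := a3.2 (right_ne_zero_of_mul hz)
    exact ⟨a1, a2, a5, a4 a5⟩
  obtain ⟨a0, ⟨z0, hz0, hz0'⟩, ha0⟩ := h1 (Io n r) (Kap T v D A) {m // m ∈ T.mon v}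
    (rn q * rn d) (num T v D A q d g) 1 (ff T v D A hv) hqd
  refine ⟨rename Subtype.val a0, ?_, ?_⟩
  · obtain ⟨b1, _, b3, b4⟩ := hz z0 hz0
    refine ⟨∑ i, z0 (Sum.inr i) • T.ev v (fun j => z0 (Sum.inl (i, j))), sec_sub T v r
      ⟨fun i j => z0 (Sum.inl (i, j)), fun i => z0 (Sum.inr i), fun i => pt_of_ne T (b1 i), rfl⟩, ?_⟩
    rw [eval_rename]
    have e : (∑ i, z0 (Sum.inr i) • T.ev v (fun j => z0 (Sum.inl (i, j)))) ∘ Subtype.val =
        fun m : {m // m ∈ T.mon v} => eval (rat (rn q * rn d) (num T v D A q d g) 1 z0)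
          (ff T v D A hv m) := by
      funext m
      exact (key T v D A hv hz0 b3 b4 m).2.symm
    rw [e]
    exact hz0'
  · intro F hF hFa J hJ P hP
    rw [eval_rename] at hFa
    have hJb : T.IsBase D A J := hP.1
    -- the point of the image closure
    obtain ⟨y, hy⟩ : ∃ y : Kap T v D A → ℂ, y = Sum.elim (fun w => T.co D A J w.1)
      (fun a => F a.1) := ⟨_, rfl⟩
    have hyf : ∀ m : {m // m ∈ T.mon v}, eval y (ff T v D A hv m) = (F ∘ Subtype.val) m := by
      intro m
      have hwt : T.wt m.1 = v := (mem_mon T).1 m.2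
      have hred := red_co T hJb (m := m.1) (by rw [hwt]; exact hv)
      have h7 := hJ.2 _ hred.2 1
      rw [one_mul, pair_red, sub_eq_zero] at h7
      rw [eval_ff, Function.comp_apply, h7, hy]
      simp only [Sum.elim_inl, Sum.elim_inr]
      refine (sum_Avf T (v := v) (fun a => T.co D A J (m.1, a) * F a) fun a _ hne => ?_).symm
      have h8 : T.co D A J (m.1, a) = 0 := by
        by_contra hc
        exact hne ((co_ne T hc).2.2.trans hwt)
      rw [h8, zero_mul]
    have hyim : y ∈ imc (rn q * rn d) (num T v D A q d g) 1 := by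
      intro Q hQ
      by_contra hne
      have h7 : J ∈ T.bo D A (cQ T v D A F Q) := by
        refine ⟨hJb, ?_⟩
        rw [eval_cQ, ← hy]
        exact hne
      obtain ⟨x', _, h8, h9, h10⟩ := hcl F J hJ _ h7
      have hdx' := ((hdg x' h8).1).1 h9
      have hcox' := (hdg x' h8).2 h9
      rw [eval_cQ] at h10
      obtain ⟨R, N, hR⟩ := clear d (Sum.elim (fun w : {w // w ∈ Kf T D A} => g w.1)
        (fun a : {a // a ∈ Avf T v A} => C (F a.1) * d)) Q
      have hval : ∀ x : Fin r → Fin n → ℂ, eval (fun p => x p.1 p.2) d ≠ 0 →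
          (∀ w, T.co D A (T.ptIdeal x) w * eval (fun p => x p.1 p.2) d =
            eval (fun p => x p.1 p.2) (g w)) →
          (fun k : Kap T v D A => eval (fun p => x p.1 p.2)
            (Sum.elim (fun w : {w // w ∈ Kf T D A} => g w.1)
              (fun a : {a // a ∈ Avf T v A} => C (F a.1) * d) k) /
            eval (fun p => x p.1 p.2) d) =
          Sum.elim (fun w => T.co D A (T.ptIdeal x) w.1) (fun a => F a.1) := by
        intro x hx hco
        funext k
        rcases k with w | a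
        · rw [Sum.elim_inl, Sum.elim_inl, div_eq_iff hx, hco]
        · rw [Sum.elim_inr, Sum.elim_inr, map_mul, eval_C, mul_div_assoc, div_self hx, mul_one]
      have hR0 : R ≠ 0 := by
        intro h0
        have h11 := hR (fun p => x' p.1 p.2) hdx'
        rw [h0, map_zero, hval x' hdx' hcox'] at h11
        exact (mul_ne_zero (pow_ne_zero N hdx') h10) h11.symm
      obtain ⟨t, ht⟩ : ∃ t : Fin r × Fin n → ℂ, eval t (q * d * R) ≠ 0 := by
        by_contra hcon
        push Not at hcon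
        exact (mul_ne_zero (mul_ne_zero hq0 hd) hR0) (MvPolynomial.funext fun t => by
          rw [hcon t, map_zero])
      rw [map_mul, map_mul] at ht
      have htq := left_ne_zero_of_mul (left_ne_zero_of_mul ht)
      have htd := right_ne_zero_of_mul (left_ne_zero_of_mul ht)
      have htR := right_ne_zero_of_mul ht
      obtain ⟨x, hx⟩ : ∃ x : Fin r → Fin n → ℂ, x = fun i j => t (i, j) := ⟨_, rfl⟩
      have htx : t = fun p => x p.1 p.2 := by
        rw [hx]
      rw [htx] at htq htd htR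
      have c1 := (hq x htq).2
      have c2 := (hdg x c1).1.2 htd
      have c3 := (hdg x c1).2 c2
      obtain ⟨c, hc⟩ := interp T v D A h4 hv c2 F
      obtain ⟨z, hzdef⟩ : ∃ z : Io n r → ℂ, z = Sum.elim (fun p => x p.1 p.2) c := ⟨_, rfl⟩
      have hzx : (fun i j => z (Sum.inl (i, j))) = x := by
        rw [hzdef]
        rfl
      have hzx2 : (fun w : Fin r × Fin n => z (Sum.inl (w.1, w.2))) = fun p => x p.1 p.2 := by
        rw [hzdef]
        rfl
      have hzn : eval z (rn q * rn d) ≠ 0 := by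
        rw [map_mul, eval_rn, eval_rn, hzx2]
        exact mul_ne_zero htq htd
      have hrat : rat (rn q * rn d) (num T v D A q d g) 1 z =
          Sum.elim (fun w => T.co D A (T.ptIdeal x) w.1) (fun a => F a.1) := by
        funext k
        rcases k with w | a
        · rw [rat_inl T v D A hzn, hzx2, Sum.elim_inl, div_eq_iff htd, c3]
        · rw [rat_inr T v D A hzn, Sum.elim_inr, ← hc a, hzdef]
          rfl
      have h12 := hQ z hzn
      rw [hrat] at h12
      have h13 := hR (fun p => x p.1 p.2) htd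
      rw [hval x htd c3, h12, mul_zero] at h13
      exact htR h13
    have hyP : eval y (rP T v D A P) ≠ 0 := by
      rw [eval_rP T v D A P J y (fun w => by rw [hy, Sum.elim_inl])]
      exact hP.2
    obtain ⟨z, hz1, hz2, hz3⟩ := ha0 _ hFa y _ hyim hyf hyP
    obtain ⟨b1, b2, b3, b4⟩ := hz z hz1
    have hFe : F = ∑ i, z (Sum.inr i) • T.ev v (fun j => z (Sum.inl (i, j))) := by
      funext m
      by_cases hm : m ∈ T.mon v
      · have h7 := hz2 ⟨m, hm⟩
        rw [(key T v D A hv hz1 b3 b4 ⟨m, hm⟩).2] at h7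
        exact h7.symm
      · rw [h6 n s r T v F hF m hm, Finset.sum_apply]
        refine (Finset.sum_eq_zero fun i _ => ?_).symm
        rw [Pi.smul_apply]
        unfold Cox.ev
        rw [if_neg hm, smul_zero]
    refine ⟨fun i j => z (Sum.inl (i, j)), fun i => pt_of_ne T (b1 i), ⟨⟨b2, ?_⟩, ?_⟩, b3, ?_⟩
    · exact @subset_closure _ (T.zar D) _ _
        ⟨b2, fun i j => z (Sum.inl (i, j)), fun i => pt_of_ne T (b1 i), rfl⟩
    · rw [hFe]
      exact h5 n s r T v _ _
    · by_cases hne : Nonempty {m // m ∈ T.mon v}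
      · obtain ⟨m⟩ := hne
        rw [eval_rP T v D A P _ _ (key T v D A hv hz1 b3 b4 m).1] at hz3
        exact hz3
      · have hd' : eval (fun w => z (Sum.inl (w.1, w.2))) d ≠ 0 := by
          rw [map_mul, eval_rn, eval_rn] at hz1
          exact right_ne_zero_of_mul hz1
        rw [eval_rP T v D A P (T.ptIdeal fun i j => z (Sum.inl (i, j))) _ (fun w => by
          rw [rat_inl T v D A hz1, div_eq_iff hd', b4])] at hz3
        exact hz3

end Pool.Agent.H675.VS
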